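import Pool.Agent.Helper20.HP.Data2

/-!
# HOPF-Q5ad: the fibre form `NE` is a smooth family of inner products; radial direction
-/

open Filter Metric Module Set
open scoped Topology ContDiff RealInnerProductSpace Manifold Quaternion

namespace Pool.Agent.Helper91.HP
open Pool.Agent.Helper20.PC Pool.Agent.Helper20.HP

/-! ### smoothness -/

theorem contDiff_coord (i : Fin 3) : ContDiff ℝ ∞ (fun x : E3 => x i) := by
  have : (fun x : E3 => x i) = (EuclideanSpace.proj i : E3 →L[ℝ] ℝ) := by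
    ext x; simp
  rw [this]
  exact ContinuousLinearMap.contDiff _

theorem contDiff_Sb (κ ε T : ℝ) (a b : E3) : ContDiff ℝ ∞ (fun x : E3 => Sb κ ε T x a b) := by
  have h0 := contDiff_coord 0
  have h1 := contDiff_coord 1
  have h2 := contDiff_coord 2
  unfold Sb SbG dotG HbG FbG PhG
  simp only [smul_eq_mul]
  fun_prop

theorem contDiff_Mf (κ ε T δ : ℝ) : ContDiff ℝ ∞ (Mf κ ε T δ) := by
  rw [contDiff_clm_apply_iff]
  intro a
  rw [contDiff_clm_apply_iff]
  intro b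
  have : (fun x : E3 => Mf κ ε T δ x a b)
      = fun x : E3 => δ ^ 2 * ⟪a, b⟫ - δ ^ 4 * Sb κ ε T x a b := by
    funext x
    simp [Mf, inL_apply]
  rw [this]
  exact contDiff_const.sub (contDiff_const.mul (contDiff_Sb κ ε T a b))

theorem contDiffAt_nn {x : E3} (hx : x ≠ 0) : ContDiffAt ℝ ∞ nn x := by
  unfold nn
  exact ((contDiffAt_norm ℝ hx).inv (norm_ne_zero_iff.2 hx)).smul contDiffAt_id

theorem NE_apply (κ ε T δ : ℝ) (x : E3) (p q : ℍ[ℝ]) :
    NE κ ε T δ x p q = p.re * q.re + 4 * Mf κ ε T δ (nn x) (vecL p) (vecL q) := by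
  simp [NE, reL_apply]

theorem contDiffOn_NE (κ ε T δ : ℝ) : ContDiffOn ℝ ∞ (NE κ ε T δ) {x : E3 | x ≠ 0} := by
  rw [contDiffOn_clm_apply]
  intro p
  rw [contDiffOn_clm_apply]
  intro q
  intro x hx
  have e : (fun x => NE κ ε T δ x p q)
      = fun x => p.re * q.re + 4 * Mf κ ε T δ (nn x) (vecL p) (vecL q) := by
    funext x
    exact NE_apply κ ε T δ x p q
  have h1 : ContDiffAt ℝ ∞ (fun x => Mf κ ε T δ (nn x)) x :=
    ((contDiff_Mf κ ε T δ).contDiffAt).comp x (contDiffAt_nn hx)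
  have h2 : ContDiffAt ℝ ∞ (fun x => Mf κ ε T δ (nn x) (vecL p) (vecL q)) x :=
    (h1.clm_apply contDiffAt_const).clm_apply contDiffAt_const
  rw [e]
  exact (contDiffAt_const.add (contDiffAt_const.mul h2)).contDiffWithinAt

theorem contDiffAt_NE (κ ε T δ : ℝ) {x : E3} (hx : x ≠ 0) : ContDiffAt ℝ ∞ (NE κ ε T δ) x :=
  (contDiffOn_NE κ ε T δ).contDiffAt (isOpen_ne.mem_nhds hx)

theorem Mf_symm (κ ε T δ : ℝ) (x a b : E3) : Mf κ ε T δ x a b = Mf κ ε T δ x b a := by
  simp only [Mf, _root_.sub_apply, _root_.smul_apply, inL_apply,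
    SbL_apply, smul_eq_mul]
  rw [real_inner_comm]
  congr 2
  simp only [Sb, SbG, dotG, HbG, FbG, PhG, smul_eq_mul]
  ring

theorem norm_nn {x : E3} (hx : x ≠ 0) : ‖nn x‖ = 1 := norm_normalize hx

-- Q5a
theorem formAt_NE {κ ε T δ : ℝ} (hM : ∀ y : E3, ‖y‖ = 1 → ∀ a, a ≠ 0 → 0 < Mf κ ε T δ y a a)
    {x : E3} (hx : x ≠ 0) : FormAt (NE κ ε T δ) x := by
  refine ⟨(contDiffAt_NE κ ε T δ hx).of_le (by norm_cast),
    Eventually.of_forall fun x' a b => ?_, ?_⟩
  · rw [NE_apply, NE_apply, Mf_symm, mul_comm a.re]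
  · have h1 : ∀ᶠ x' in 𝓝 x, x' ≠ 0 := isOpen_ne.mem_nhds hx
    filter_upwards [h1] with x' hx' p hp
    rw [NE_apply]
    by_cases hv : vecL p = 0
    · have h2 : p.re ≠ 0 := by
        intro h3
        apply hp
        have e := fun i => congrArg (fun v : E3 => v i) hv
        have e0 := e 0
        have e1 := e 1
        have e2 := e 2
        simp [vecL_apply] at e0 e1 e2
        ext <;> simp [h3, e0, e1, e2]
      rw [hv]
      have : 0 < p.re * p.re := mul_self_pos.2 h2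
      simpa using this
    · have h2 := hM _ (norm_nn hx') _ hv
      have := mul_self_nonneg p.re
      linarith

/-! ### radial direction and real part -/

theorem dn_self {x : E3} (hx : x ≠ 0) : dn x x = 0 := by
  have h1 : dl x x = 1 := by
    simp only [dl, _root_.smul_apply, innerSL_apply_apply, real_inner_self_eq_norm_sq, smul_eq_mul]
    exact inv_mul_cancel₀ (pow_ne_zero 2 (norm_ne_zero_iff.2 hx))
  simp [dn, h1]

theorem AE_self (κ ε : ℝ) {x : E3} (hx : x ≠ 0) : AE κ ε x x = 0 := by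
  simp [AE, dn_self hx]

theorem br_zero_left (p : ℍ[ℝ]) : br (0 : ℍ[ℝ]) p = 0 := by simp [br]

theorem dN_self (κ ε T δ : ℝ) {x : E3} (hx : x ≠ 0) (p q : ℍ[ℝ]) :
    dN (NE κ ε T δ) x x p q = 0 := by
  have hd : DifferentiableAt ℝ (fun x' => NE κ ε T δ x' p q) x :=
    (((contDiffAt_NE κ ε T δ hx).clm_apply contDiffAt_const).clm_apply
      contDiffAt_const).differentiableAt (by simp)
  have hl : HasDerivAt (fun t : ℝ => x + t • x) x 0 := by
    simpa using ((hasDerivAt_id (0 : ℝ)).smul_const x).const_add x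
  have hd' : HasFDerivAt (fun x' => NE κ ε T δ x' p q)
      (fderiv ℝ (fun x' => NE κ ε T δ x' p q) x) (x + (0 : ℝ) • x) := by
    simpa using hd.hasFDerivAt
  have h1 := hd'.comp_hasDerivAt (0 : ℝ) hl
  have hconst : (fun t : ℝ => NE κ ε T δ (x + t • x) p q) =ᶠ[𝓝 0] fun _ => NE κ ε T δ x p q := by
    have h2 : ∀ᶠ t : ℝ in 𝓝 0, -1 < t := eventually_gt_nhds (by norm_num)
    filter_upwards [h2] with t ht
    have h3 : x + t • x = (1 + t) • x := by rw [add_smul, one_smul]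
    have h4 : nn (x + t • x) = nn x := by
      have h5 : (0 : ℝ) < 1 + t := by linarith
      rw [h3, nn, nn, norm_smul, Real.norm_eq_abs, abs_of_pos h5, mul_inv, smul_smul,
        mul_right_comm, inv_mul_cancel₀ h5.ne', one_mul]
    rw [NE_apply, NE_apply, h4]
  have h6 : HasDerivAt (fun t : ℝ => NE κ ε T δ (x + t • x) p q) 0 0 :=
    (hasDerivAt_const (0 : ℝ) (NE κ ε T δ x p q)).congr_of_eventuallyEq hconst
  exact HasDerivAt.unique h1 h6

theorem vecL_one : vecL (1 : ℍ[ℝ]) = 0 := by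
  rw [vecL_apply]
  ext i
  fin_cases i <;> simp

theorem NE_one (κ ε T δ : ℝ) (x : E3) (p : ℍ[ℝ]) : NE κ ε T δ x p 1 = p.re := by
  rw [NE_apply, vecL_one]
  simp

theorem re_br (p q : ℍ[ℝ]) : (br p q).re = 0 := by
  simp only [br, Quaternion.re_sub, Quaternion.re_mul]
  ring

-- Q5d : radial direction and real part
theorem cN_NE' {κ ε T δ : ℝ} (hκ : |κ| ≤ 1/10) {x : E3} (hx : ‖x‖ = 1) (ζ : E3) (a : E3)
    (p q : ℍ[ℝ]) :
    cN1 (NE κ ε T δ) (AE κ ε) x x p q = 0 ∧ cN1 (NE κ ε T δ) (AE κ ε) x ζ (qimL a) 1 = 0 ∧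
    AE κ ε x x = 0 := by
  have hx0 : x ≠ 0 := by
    intro h
    rw [h, norm_zero] at hx
    exact one_ne_zero hx.symm
  refine ⟨?_, ?_, AE_self κ ε hx0⟩
  · rw [cN1, dN_self κ ε T δ hx0, AE_self κ ε hx0, br_zero_left, br_zero_left]
    simp
  · have h1 : dN (NE κ ε T δ) x ζ (qimL a) 1 = 0 := by
      have e : (fun x' => NE κ ε T δ x' (qimL a) 1) = fun _ => (0 : ℝ) := by
        funext x'
        rw [NE_one, qimL_apply]
      rw [dN, e]
      simp
    have h2 : br (AE κ ε x ζ) (1 : ℍ[ℝ]) = 0 := by simp [br]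
    rw [cN1, h1, NE_one, re_br, h2]
    simp

end Pool.Agent.Helper91.HP
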